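import Mathlib
import Pool.Agent.H89.TG7

set_option autoImplicit false

namespace Pool.Agent.Results.MP_ec8146_lc.NotTransducible

/-- A drawing of `G` in the space `X`: distinct points for the vertices, and for each edge a simple
arc joining its ends (the two orientations trace the same arc) through no other vertex. -/
structure Drawing (X : Type) [TopologicalSpace X] {V : Type} (G : SimpleGraph V) where
  pos : V → X
  arc : V → V → ℝ → X
  pos_inj : Function.Injective pos
  cont : ∀ u v, G.Adj u v → ContinuousOn (arc u v) (Set.Icc 0 1)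
  inj : ∀ u v, G.Adj u v → Set.InjOn (arc u v) (Set.Icc 0 1)
  src : ∀ u v, G.Adj u v → arc u v 0 = pos u
  tgt : ∀ u v, G.Adj u v → arc u v 1 = pos v
  rev : ∀ u v, G.Adj u v → ∀ t ∈ Set.Icc (0 : ℝ) 1, arc v u t = arc u v (1 - t)
  avoid : ∀ u v, G.Adj u v → ∀ t ∈ Set.Ioo (0 : ℝ) 1, ∀ w, arc u v t ≠ pos w

/-- `G` embeds in `X`: it has a drawing in which distinct edges have no common interior point. -/
def Embeds (X : Type) [TopologicalSpace X] {V : Type} (G : SimpleGraph V) : Prop :=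
  ∃ D : Drawing X G, ∀ u v u' v', G.Adj u v → G.Adj u' v' → s(u, v) ≠ s(u', v') →
    ∀ s ∈ Set.Ioo (0 : ℝ) 1, ∀ t ∈ Set.Ioo (0 : ℝ) 1, D.arc u v s ≠ D.arc u' v' t

/-- Toroidal graphs: those embedding in the torus `ℝ/ℤ × ℝ/ℤ`. -/
def Toroidal {V : Type} (G : SimpleGraph V) : Prop := Embeds (UnitAddCircle × UnitAddCircle) G

/-- Planar graphs: those embedding in the plane. -/
def Planar {V : Type} (G : SimpleGraph V) : Prop := Embeds ℂ G

/-- First-order formulas over the edge relation and `c` colours whose free variables are among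
`n` variables; `ex φ` quantifies the variable `0` of `φ`. -/
inductive Fm (c : ℕ) : ℕ → Type
  | eq {n : ℕ} (i j : Fin n) : Fm c n
  | adj {n : ℕ} (i j : Fin n) : Fm c n
  | col {n : ℕ} (k : Fin c) (i : Fin n) : Fm c n
  | not {n : ℕ} (φ : Fm c n) : Fm c n
  | and {n : ℕ} (φ χ : Fm c n) : Fm c n
  | ex {n : ℕ} (φ : Fm c (n + 1)) : Fm c n

/-- Satisfaction in the graph `G` with colours `C` under an assignment of the variables. -/
def Sat {c : ℕ} {V : Type} (G : SimpleGraph V) (C : Fin c → V → Prop) :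
    {n : ℕ} → Fm c n → (Fin n → V) → Prop
  | _, .eq i j, x => x i = x j
  | _, .adj i j, x => G.Adj (x i) (x j)
  | _, .col k i, x => C k (x i)
  | _, .not φ, x => ¬ Sat G C φ x
  | _, .and φ χ, x => Sat G C φ x ∧ Sat G C χ x
  | _, .ex φ, x => ∃ z, Sat G C φ (Fin.cons z x)

/-- The graph `ψ(G⁺)`: distinct `u`, `v` are adjacent iff `ψ(u, v)` or `ψ(v, u)` holds. -/
def Interp {c : ℕ} (ψ : Fm c 2) {V : Type} (G : SimpleGraph V) (C : Fin c → V → Prop) :
    SimpleGraph V :=
  SimpleGraph.fromRel fun u v => Sat G C ψ ![u, v]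

theorem loc {c n : ℕ} (φ : Fm c n) : H89.TG.Loc fun _ G C x => Sat G C φ x := by
  induction φ with
  | eq i j => exact H89.TG.loc_eq i j
  | adj i j => exact H89.TG.loc_adj i j
  | col k i => exact H89.TG.loc_col k i
  | not _ h => exact H89.TG.loc_not h
  | and _ _ h k => exact H89.TG.loc_and h k
  | ex _ h => exact H89.TG.loc_ex h

theorem result (c : ℕ) (ψ : Fm c 2) : ∃ (U : Type) (_ : Finite U) (H : SimpleGraph U),
    Toroidal H ∧ (∀ u, (H.neighborSet u).ncard ≤ 3) ∧
    ∀ (V : Type) [Finite V] (G : SimpleGraph V), Planar G → ∀ C : Fin c → V → Prop,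
      IsEmpty (H ↪g Interp ψ G C) := by
  classical
  obtain ⟨N, M, hN, h0, h2, g⟩ := H89.TG.notrans (loc ψ)
  obtain ⟨D, hD⟩ := H89.TG.toroidal hN h0
  refine ⟨_, inferInstance, H89.TG.H N M, ⟨⟨D.1, D.2, D.3, D.4, D.5, D.6, D.7, D.8, D.9⟩, hD⟩,
    fun u => ?_, fun V _ G ⟨E, hE⟩ C => ⟨fun f => g V G
      ⟨E.1, E.2, E.3, E.4, E.5, E.6, E.7, E.8, E.9⟩ hE C f (fun u v => ?_) f.injective⟩⟩
  · refine le_trans (le_of_eq ?_) (H89.TG.deg3 h0 h2 u)
    rw [← Set.ncard_coe_finset]
    congr 1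
    ext v
    simp
  · exact f.map_adj_iff.symm.trans (SimpleGraph.fromRel_adj _ _ _)

end Pool.Agent.Results.MP_ec8146_lc.NotTransducible
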